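import Pool.Agent.Y504.CO.Stm

/-! Project CO: a matrix with an eigenvalue of modulus one is near a resonant one (ALG), by helper832. -/

set_option autoImplicit false

open Filter Set Metric Topology

namespace Pool.Agent.Y832.CO.ALG

open Pool.Agent.H718R2.G Pool.Agent.Y504.CO

/-- The perturbation. -/
noncomputable def TT {n : ℕ} (π R : V n →L[ℝ] V n) (s : ℝ) : V n →L[ℝ] V n :=
  (R - π) + s • (ContinuousLinearMap.id ℝ (V n) - π)

/-- The perturbed map. -/
noncomputable def AA {n : ℕ} (A π R : V n →L[ℝ] V n) (s : ℝ) : V n →L[ℝ] V n :=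
  A ∘L (ContinuousLinearMap.id ℝ (V n) + TT π R s)

theorem AA_apply {n : ℕ} (A π R : V n →L[ℝ] V n) (s : ℝ) (x : V n) :
    AA A π R s x = A (R x) + (1 + s) • A (x - π x) := by
  have h : x + (R x - π x + s • (x - π x)) = R x + (1 + s) • (x - π x) := by
    rw [add_smul, one_smul]
    abel
  have h2 : AA A π R s x = A (x + (R x - π x + s • (x - π x))) := rfl
  rw [h2, h, map_add, map_smul]

theorem quot_lemma {n : ℕ} (A π R : V n →L[ℝ] V n) (W : Submodule ℝ (V n)) (b : ℕ) (hb : 1 ≤ b)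
    (hπW : ∀ x, π x ∈ W) (hπ : ∀ x ∈ W, π x = x) (hRW : ∀ x, R x ∈ W)
    (hAW : ∀ x ∈ W, A x ∈ W) (δ : ℝ) (hδ : 0 < δ) :
    ∃ s : ℝ, 0 < s ∧ s < δ ∧ ∀ y, (AA A π R s)^[b] y - y ∈ W → y ∈ W := by
  let p : V n →ₗ[ℝ] V n := LinearMap.id - (π : V n →ₗ[ℝ] V n)
  have hp : ∀ x, p x = x - π x := fun x => rfl
  let C : Module.End ℝ (V n) := p ∘ₗ (A : V n →ₗ[ℝ] V n)
  have hC : ∀ x, C x = A x - π (A x) := fun x => rfl
  have hfin : Set.Finite {μ : ℝ | (C ^ b).HasEigenvalue μ} :=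
    Module.End.finite_hasEigenvalue (C ^ b)
  have hinj : Set.InjOn (fun s : ℝ => ((1 + s) ^ b)⁻¹) (Ioo 0 δ) := by
    intro s hs t ht h
    have h1 := inv_injective h
    have h2 := (pow_left_inj₀ (by linarith [hs.1]) (by linarith [ht.1]) (by omega)).1 h1
    linarith
  obtain ⟨_, ⟨s, hs, rfl⟩, hs2⟩ := (((Ioo_infinite hδ).image hinj).diff hfin).nonempty
  refine ⟨s, hs.1, hs.2, ?_⟩
  intro y hy
  have hstep : ∀ x, p (AA A π R s x) = (1 + s) • C (p x) := by
    intro x
    rw [AA_apply, map_add, map_smul, hp (A (R x)), hπ _ (hAW _ (hRW x)), sub_self, zero_add]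
    rfl
  have hiter : ∀ k : ℕ, ∀ x, p ((AA A π R s)^[k] x) = (1 + s) ^ k • (C ^ k) (p x) := by
    intro k
    induction k with
    | zero => intro x; simp
    | succ k ih =>
      intro x
      rw [Function.iterate_succ_apply', hstep, ih, map_smul, smul_smul, pow_succ' C k, pow_succ']
      rfl
  have h0 : p ((AA A π R s)^[b] y) = p y := by
    have h1 : p ((AA A π R s)^[b] y - y) = 0 := by
      rw [hp, hπ _ hy, sub_self]
    rw [map_sub, sub_eq_zero] at h1
    exact h1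
  rw [hiter] at h0
  have hs1 : (0 : ℝ) < (1 + s) ^ b := by
    have := hs.1
    positivity
  have h3 : (C ^ b) (p y) = ((1 + s) ^ b)⁻¹ • p y := by
    rw [← h0, smul_smul, inv_mul_cancel₀ hs1.ne', one_smul, h0]
  have h4 : p y = 0 := by
    by_contra hne
    apply hs2
    exact Module.End.hasEigenvalue_of_hasEigenvector
      (Module.End.hasEigenvector_iff.2 ⟨Module.End.mem_eigenspace_iff.2 h3, hne⟩)
  rw [hp, sub_eq_zero] at h4
  rw [h4]
  exact hπW y

theorem norm_TT {n : ℕ} (π R : V n →L[ℝ] V n) (ε : ℝ) (hε : 0 < ε) (hR : ‖R - π‖ < ε / 2) (s : ℝ)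
    (hs0 : 0 < s) (hs : s < ε / 2 / (‖ContinuousLinearMap.id ℝ (V n) - π‖ + 1)) :
    ‖TT π R s‖ < ε := by
  have h1 : 0 < ‖ContinuousLinearMap.id ℝ (V n) - π‖ + 1 := by positivity
  rw [lt_div_iff₀ h1] at hs
  calc ‖TT π R s‖ ≤ ‖R - π‖ + ‖s • (ContinuousLinearMap.id ℝ (V n) - π)‖ := norm_add_le _ _
    _ = ‖R - π‖ + s * ‖ContinuousLinearMap.id ℝ (V n) - π‖ := by
        rw [norm_smul, Real.norm_of_nonneg hs0.le]
    _ < ε := by nlinarith

/-- a real eigenvalue `±1` -/
theorem case1 {n : ℕ} (A : V n →L[ℝ] V n) (e : V n) (he : e ≠ 0) (c : ℝ) (hc : c * c = 1)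
    (hA : A e = c • e) (ε : ℝ) (hε : 0 < ε) : ∃ (T : V n →L[ℝ] V n) (b j : ℕ)
    (W : Submodule ℝ (V n)) (w₀ : V n) (𝒮 : V j →L[ℝ] (V n →L[ℝ] V n)),
    ‖T‖ < ε ∧ Res (A ∘L (ContinuousLinearMap.id ℝ (V n) + T)) b j W w₀ 𝒮 := by
  obtain ⟨α, hα⟩ := SeparatingDual.exists_eq_one (R := ℝ) he
  let π : V n →L[ℝ] V n := α.smulRight e
  have hπ : ∀ x, π x = α x • e := fun x => rfl
  have hmem : ∀ x, x ∈ (ℝ ∙ e) ↔ ∃ a : ℝ, a • e = x := fun x => Submodule.mem_span_singleton
  have hπW : ∀ x, π x ∈ (ℝ ∙ e) := fun x => (hmem _).2 ⟨α x, rfl⟩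
  have hπx : ∀ x ∈ (ℝ ∙ e), π x = x := by
    intro x hx
    obtain ⟨a, rfl⟩ := (hmem x).1 hx
    rw [hπ, map_smul, hα, smul_eq_mul, mul_one]
  have hAe : ∀ x ∈ (ℝ ∙ e), A x = c • x := by
    intro x hx
    obtain ⟨a, rfl⟩ := (hmem x).1 hx
    rw [map_smul, hA, smul_comm]
  have hAW : ∀ x ∈ (ℝ ∙ e), A x ∈ (ℝ ∙ e) := fun x hx => by
    rw [hAe x hx]
    exact Submodule.smul_mem _ _ hx
  obtain ⟨s, hs0, hs1, hs⟩ := quot_lemma A π π (ℝ ∙ e) 2 (by norm_num) hπW hπx hπW hAW
    (ε / 2 / (‖ContinuousLinearMap.id ℝ (V n) - π‖ + 1)) (by positivity)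
  have hAA : ∀ x ∈ (ℝ ∙ e), AA A π π s x = c • x := by
    intro x hx
    rw [AA_apply, hπx x hx, sub_self, map_zero, smul_zero, add_zero, hAe x hx]
  refine ⟨TT π π s, 2, 1, ℝ ∙ e, e, (EuclideanSpace.proj (0 : Fin 1)).smulRight π,
    norm_TT π π ε hε (by rw [sub_self, norm_zero]; positivity) s hs0 hs1, ?_⟩
  change Res (AA A π π s) 2 1 (ℝ ∙ e) e _
  refine ⟨by norm_num, finrank_span_singleton he, Submodule.mem_span_singleton_self e, he, ?_, ?_,
    hs, ?_, ?_, ?_⟩
  · intro x hx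
    rw [hAA x hx]
    exact Submodule.smul_mem _ _ hx
  · intro x hx
    rw [Function.iterate_succ_apply, Function.iterate_succ_apply, Function.iterate_zero, id,
      hAA x hx, hAA _ (Submodule.smul_mem _ _ hx), smul_smul, hc, one_smul]
  · intro ζ x hx
    exact Submodule.smul_mem _ _ (hπW x)
  · intro ζ x hx
    change AA A π π s (ζ 0 • π x) = ζ 0 • π (AA A π π s x)
    rw [hAA x hx, hπx x hx, hAA _ (Submodule.smul_mem _ _ hx), hπx _ (Submodule.smul_mem _ _ hx),
      smul_comm]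
  · intro ζ h
    change ζ 0 • π e = 0 at h
    rw [hπx e (Submodule.mem_span_singleton_self e), smul_eq_zero] at h
    have h0 : ζ 0 = 0 := h.resolve_right he
    ext i
    rw [Subsingleton.elim i 0, h0]
    rfl

/-- a pair of complex eigenvalues -/
theorem case2 {n : ℕ} (A : V n →L[ℝ] V n) (θ : ℝ) (u w : V n) (α β : V n →L[ℝ] ℝ) (hαu : α u = 1)
    (hαw : α w = 0) (hβu : β u = 0) (hβw : β w = 1)
    (hAu : A u = Real.cos θ • u - Real.sin θ • w) (hAw : A w = Real.sin θ • u + Real.cos θ • w)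
    (ε : ℝ) (hε : 0 < ε) : ∃ (T : V n →L[ℝ] V n) (b j : ℕ)
    (W : Submodule ℝ (V n)) (w₀ : V n) (𝒮 : V j →L[ℝ] (V n →L[ℝ] V n)),
    ‖T‖ < ε ∧ Res (A ∘L (ContinuousLinearMap.id ℝ (V n) + T)) b j W w₀ 𝒮 := by
  let π : V n →L[ℝ] V n := α.smulRight u + β.smulRight w
  let J : V n →L[ℝ] V n := β.smulRight u - α.smulRight w
  have hπ : ∀ x, π x = α x • u + β x • w := fun x => rfl
  have hJ : ∀ x, J x = β x • u - α x • w := fun x => rfl
  let W : Submodule ℝ (V n) := Submodule.span ℝ {u, w}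
  have hmem : ∀ x, x ∈ W ↔ ∃ a b : ℝ, a • u + b • w = x := fun x => Submodule.mem_span_pair
  have hπW : ∀ x, π x ∈ W := fun x => (hmem _).2 ⟨α x, β x, rfl⟩
  have hJW : ∀ x, J x ∈ W := fun x => (hmem _).2 ⟨β x, -α x, by rw [hJ, neg_smul, sub_eq_add_neg]⟩
  have hα' : ∀ a b : ℝ, α (a • u + b • w) = a := fun a b => by
    rw [map_add, map_smul, map_smul, hαu, hαw]; simp
  have hβ' : ∀ a b : ℝ, β (a • u + b • w) = b := fun a b => by
    rw [map_add, map_smul, map_smul, hβu, hβw]; simp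
  have hπx : ∀ x ∈ W, π x = x := by
    intro x hx
    obtain ⟨a, b, rfl⟩ := (hmem x).1 hx
    rw [hπ, hα', hβ']
  have hJJ : ∀ x ∈ W, J (J x) = -x := by
    intro x hx
    obtain ⟨a, b, rfl⟩ := (hmem x).1 hx
    have h1 : J (a • u + b • w) = b • u + (-a) • w := by
      rw [hJ, hα', hβ', neg_smul, sub_eq_add_neg]
    rw [h1, hJ, hα', hβ']
    module
  have hAJ : ∀ x ∈ W, A x = Real.cos θ • x + Real.sin θ • J x := by
    intro x hx
    obtain ⟨a, b, rfl⟩ := (hmem x).1 hx
    rw [hJ, hα', hβ', map_add, map_smul, map_smul, hAu, hAw]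
    module
  have hAW : ∀ x ∈ W, A x ∈ W := fun x hx => by
    rw [hAJ x hx]
    exact Submodule.add_mem _ (Submodule.smul_mem _ _ hx) (Submodule.smul_mem _ _ (hJW x))
  -- the angle
  let Rφ : ℝ → (V n →L[ℝ] V n) := fun φ => Real.cos φ • π + Real.sin φ • J
  have hcont : Continuous fun φ : ℝ => ‖Rφ φ - π‖ := by
    have h1 : Continuous Rφ :=
      (Real.continuous_cos.smul continuous_const).add (Real.continuous_sin.smul continuous_const)
    exact (h1.sub continuous_const).norm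
  have hzero : ‖Rφ 0 - π‖ = 0 := by
    have h1 : Rφ 0 = π := by
      refine ContinuousLinearMap.ext fun x => ?_
      change Real.cos 0 • π x + Real.sin 0 • J x = π x
      simp
    rw [h1, sub_self, norm_zero]
  obtain ⟨η, hη, hη2⟩ := Metric.continuousAt_iff.1 (hcont.continuousAt (x := (0 : ℝ))) (ε / 2)
    (by positivity)
  obtain ⟨q, hq1, hq2⟩ := exists_rat_btwn (show (θ - η) / (2 * Real.pi) < (θ + η) / (2 * Real.pi) by
    apply div_lt_div_of_pos_right _ (by positivity)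
    linarith)
  rw [div_lt_iff₀ (by positivity)] at hq1
  rw [lt_div_iff₀ (by positivity)] at hq2
  set φ : ℝ := q * (2 * Real.pi) - θ with hφ
  have hφR : ‖Rφ φ - π‖ < ε / 2 := by
    have h1 := hη2 (x := φ) (by
      rw [Real.dist_eq, sub_zero, abs_lt]
      constructor <;> linarith)
    rw [Real.dist_eq, hzero, sub_zero, abs_of_nonneg (norm_nonneg _)] at h1
    exact h1
  have hRW : ∀ x, Rφ φ x ∈ W := fun x =>
    Submodule.add_mem _ (Submodule.smul_mem _ _ (hπW x)) (Submodule.smul_mem _ _ (hJW x))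
  obtain ⟨s, hs0, hs1, hs⟩ := quot_lemma A π (Rφ φ) W q.den q.den_pos hπW hπx hRW hAW
    (ε / 2 / (‖ContinuousLinearMap.id ℝ (V n) - π‖ + 1)) (by positivity)
  set ω : ℝ := q * (2 * Real.pi) with hω
  have hR' : ∀ x ∈ W, Rφ φ x = Real.cos φ • x + Real.sin φ • J x := by
    intro x hx
    change Real.cos φ • π x + Real.sin φ • J x = _
    rw [hπx x hx]
  have hAA : ∀ x ∈ W, AA A π (Rφ φ) s x = Real.cos ω • x + Real.sin ω • J x := by
    intro x hx
    rw [AA_apply, hπx x hx, sub_self, map_zero, smul_zero, add_zero, hAJ _ (hRW x), hR' x hx,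
      map_add, map_smul, map_smul, hJJ x hx]
    have e1 : ω = θ + φ := by rw [hφ]; ring
    rw [e1, Real.cos_add, Real.sin_add]
    module
  have hiter : ∀ k : ℕ, ∀ x ∈ W, (AA A π (Rφ φ) s)^[k] x =
      Real.cos (k * ω) • x + Real.sin (k * ω) • J x := by
    intro k
    induction k with
    | zero => intro x _; simp
    | succ k ih =>
      intro x hx
      have hm : (AA A π (Rφ φ) s)^[k] x ∈ W := by
        rw [ih x hx]
        exact Submodule.add_mem _ (Submodule.smul_mem _ _ hx) (Submodule.smul_mem _ _ (hJW x))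
      rw [Function.iterate_succ_apply', hAA _ hm, ih x hx, map_add, map_smul, map_smul, hJJ x hx]
      have e1 : ((k + 1 : ℕ) : ℝ) * ω = k * ω + ω := by push_cast; ring
      rw [e1, Real.cos_add, Real.sin_add]
      module
  have hlin : LinearIndependent ℝ ![u, w] := by
    rw [LinearIndependent.pair_iff]
    intro a b h
    have h1 := hα' a b
    have h2 := hβ' a b
    rw [h, map_zero] at h1 h2
    exact ⟨h1.symm, h2.symm⟩
  have hbω : (q.den : ℝ) * ω = (q.num : ℤ) * (2 * Real.pi) := by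
    rw [hω, ← mul_assoc]
    congr 1
    exact_mod_cast Rat.den_mul_eq_num q
  refine ⟨TT π (Rφ φ) s, q.den, 2, W, u,
    (EuclideanSpace.proj (0 : Fin 2)).smulRight π + (EuclideanSpace.proj (1 : Fin 2)).smulRight J,
    norm_TT π (Rφ φ) ε hε hφR s hs0 hs1, ?_⟩
  change Res (AA A π (Rφ φ) s) q.den 2 W u _
  have huW : u ∈ W := Submodule.subset_span (by simp)
  refine ⟨q.den_pos, ?_, huW, ?_, ?_, ?_, hs, ?_, ?_, ?_⟩
  · have h1 := finrank_span_eq_card hlin
    rw [Matrix.range_cons_cons_empty] at h1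
    simpa using h1
  · intro h
    rw [h, map_zero] at hαu
    exact zero_ne_one hαu
  · intro x hx
    rw [hAA x hx]
    exact Submodule.add_mem _ (Submodule.smul_mem _ _ hx) (Submodule.smul_mem _ _ (hJW x))
  · intro x hx
    rw [hiter _ x hx, hbω, Real.cos_int_mul_two_pi]
    have h1 : Real.sin ((q.num : ℤ) * (2 * Real.pi)) = 0 := by
      have := Real.sin_int_mul_pi (2 * q.num)
      rw [← this]
      congr 1
      push_cast
      ring
    rw [h1]
    simp
  · intro ζ x hx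
    exact Submodule.add_mem _ (Submodule.smul_mem _ _ (hπW x)) (Submodule.smul_mem _ _ (hJW x))
  · intro ζ x hx
    change AA A π (Rφ φ) s (ζ 0 • π x + ζ 1 • J x) =
      ζ 0 • π (AA A π (Rφ φ) s x) + ζ 1 • J (AA A π (Rφ φ) s x)
    rw [hπx x hx, map_add, map_smul, map_smul, hAA x hx, hAA _ (hJW x), hπx _ (Submodule.add_mem _
      (Submodule.smul_mem _ _ hx) (Submodule.smul_mem _ _ (hJW x))), map_add, map_smul, map_smul,
      hJJ x hx]
  · intro ζ h
    change ζ 0 • π u + ζ 1 • J u = 0 at h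
    rw [hπx u huW, hJ, hβu, hαu] at h
    have h1 : ζ 0 • u + (-ζ 1) • w = 0 := by
      rw [← h]
      module
    have h2 := hα' (ζ 0) (-ζ 1)
    have h3 := hβ' (ζ 0) (-ζ 1)
    rw [h1, map_zero] at h2 h3
    ext i
    fin_cases i
    · exact h2.symm
    · have : ζ 1 = 0 := by linarith
      exact this

theorem main : S_ALG := by
  rintro n A ⟨θ, u, w, hne, hAu, hAw⟩ ε hε
  have hcs : Real.sin θ = 0 → Real.cos θ * Real.cos θ = 1 := fun h => by
    have := Real.sin_sq_add_cos_sq θ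
    rw [h] at this
    nlinarith
  by_cases hu : u = 0
  · have hw : w ≠ 0 := hne.resolve_left (fun h => h hu)
    have hs : Real.sin θ = 0 := by
      rw [hu, map_zero, smul_zero, zero_sub] at hAu
      have h1 : Real.sin θ • w = 0 := neg_eq_zero.1 hAu.symm
      exact (smul_eq_zero.1 h1).resolve_right hw
    refine case1 A w hw (Real.cos θ) (hcs hs) ?_ ε hε
    rw [hAw, hs, zero_smul, zero_add]
  · obtain ⟨f, hf⟩ := SeparatingDual.exists_eq_one (R := ℝ) hu
    by_cases hw : w - f w • u = 0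
    · have hw' : w = f w • u := sub_eq_zero.1 hw
      have hs : Real.sin θ = 0 := by
        have h1 : f (A u) = Real.cos θ - Real.sin θ * f w := by
          rw [hAu, map_sub, map_smul, map_smul, hf]; simp
        have h2 : f (A w) = Real.sin θ + Real.cos θ * f w := by
          rw [hAw, map_add, map_smul, map_smul, hf]; simp
        have h3 : f (A w) = f w * f (A u) := by
          conv_lhs => rw [hw', map_smul, map_smul]
          simp
        rw [h1, h2] at h3
        have h4 : Real.sin θ * (1 + f w * f w) = 0 := by linarith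
        rcases mul_eq_zero.1 h4 with h | h
        · exact h
        · nlinarith [mul_self_nonneg (f w)]
      refine case1 A u hu (Real.cos θ) (hcs hs) ?_ ε hε
      rw [hAu, hs, zero_smul, sub_zero]
    · obtain ⟨g, hg⟩ := SeparatingDual.exists_eq_one (R := ℝ) hw
      rw [map_sub, map_smul, smul_eq_mul] at hg
      refine case2 A θ u w (f - f w • (g - g u • f)) (g - g u • f) ?_ ?_ ?_ ?_ hAu hAw ε hε
      · simp [hf]
      · simp only [sub_apply, smul_apply, smul_eq_mul]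
        have : g w - g u * f w = 1 := by rw [← hg]; ring
        rw [this]
        ring
      · simp [hf]
      · simp only [sub_apply, smul_apply, smul_eq_mul]
        rw [← hg]
        ring

end Pool.Agent.Y832.CO.ALG
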